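import Mathlib

/-!
# The algebraic part of the profile inequality

`s = 1 - x` is the quotient of half the vertical period and the longest chord; `u`, `v` are the
values of the profile at `1 / 2` and at `s`.
-/

namespace Pool.Agent.Q265.DL

/-- first lower bound for the part up to `1 / 2` -/
noncomputable def hj1 (s u : ℝ) : ℝ := 7 / 48 + u / 12 - 11 * u ^ 2 / 48 + 3 / 8 * s

/-- second lower bound for the part up to `1 / 2` -/
noncomputable def hj2 (u : ℝ) : ℝ := (1 + u + u ^ 2) / 6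

/-- first lower bound for the part from `1 / 2` on -/
noncomputable def me1 (s r u v : ℝ) : ℝ :=
  3 / 8 * s - s * v ^ 2 / 2 - (1 - s) / 6 * (3 * u ^ 2 + 3 * r * u * (u - v) + r ^ 2 * (u - v) ^ 2)
    + (1 - s) * v ^ 2 / 3

/-- second lower bound for the part from `1 / 2` on -/
noncomputable def me2 (s u v : ℝ) : ℝ := (s - 1 / 2) * (u ^ 2 + u * v + v ^ 2) / 3 + (1 - s) * v ^ 2 / 3

theorem hj1_anti {s u u1 : ℝ} (h1 : 2 / 3 ≤ u1) (h0 : 0 ≤ u) (h : u ≤ u1) :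
    hj1 s u1 ≤ hj1 s u := by
  unfold hj1
  nlinarith [mul_nonneg (sub_nonneg.2 h) (show 0 ≤ 11 * (u + u1) - 4 by linarith)]

theorem hj2_mono {u u1 : ℝ} (h0 : 0 ≤ u1) (h : u1 ≤ u) : hj2 u1 ≤ hj2 u := by
  unfold hj2
  nlinarith

/-- `me1` is decreasing in `u` -/
theorem me1_anti {s r u u1 v : ℝ} (hs : s ≤ 1) (hr0 : 0 ≤ r) (hr : r ≤ 1) (hv0 : 0 ≤ v)
    (hvu : v ≤ u) (h : u ≤ u1) : me1 s r u1 v ≤ me1 s r u v := by
  unfold me1
  have e : 0 ≤ (1 - s) / 6 * ((u1 - u) * (3 * (u + u1) + 3 * r * (u + u1 - v)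
      + r ^ 2 * (u + u1 - 2 * v))) := by
    have h1 : 0 ≤ u + u1 - v := by linarith
    have h2 : 0 ≤ u + u1 - 2 * v := by linarith
    have h3 : 0 ≤ u1 - u := by linarith
    have h4 : 0 ≤ 1 - s := by linarith
    have h5 : 0 ≤ u + u1 := by linarith
    positivity
  nlinarith

/-- `me2` is increasing in `v` -/
theorem me2_mono {s u v v1 : ℝ} (hs : s ≤ 1) (hs0 : 1 / 2 ≤ s) (hu : 0 ≤ u) (h0 : 0 ≤ v1)
    (h : v1 ≤ v) : me2 s u v1 ≤ me2 s u v := by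
  unfold me2
  have e : 0 ≤ (s - 1 / 2) * ((v - v1) * (u + v + v1)) / 3 + (1 - s) * ((v - v1) * (v + v1)) / 3 := by
    have h1 : 0 ≤ s - 1 / 2 := by linarith
    have h2 : 0 ≤ v - v1 := by linarith
    have h3 : 0 ≤ 1 - s := by linarith
    have h4 : 0 ≤ v := by linarith
    positivity
  nlinarith

/-- `hj2 + me1` is increasing in `u` -/
theorem j2m1_mono {s r u u1 v : ℝ} (hs : s ≤ 1) (hs0 : 18 / 25 ≤ s) (hr0 : 0 ≤ r) (hr : r ≤ 7 / 11)
    (hv0 : 0 ≤ v) (hvu : v ≤ u1) (h : u1 ≤ u) (hu : u ≤ 1) :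
    hj2 u1 + me1 s r u1 v ≤ hj2 u + me1 s r u v := by
  unfold me1 hj2
  have h3 : 0 ≤ u - u1 := by linarith
  have h4 : 0 ≤ 1 - s := by linarith
  have hr2 : r ^ 2 ≤ 49 / 121 := by nlinarith
  have key : (1 - s) * (3 * (u + u1) + 3 * r * (u + u1 - v) + r ^ 2 * (u + u1 - 2 * v))
      ≤ 1 + u + u1 := by
    have a1 : 3 * (u + u1) + 3 * r * (u + u1 - v) + r ^ 2 * (u + u1 - 2 * v)
        ≤ (3 + 21 / 11 + 49 / 121) * (u + u1) := by
      have b1 : r * (u + u1 - v) ≤ 7 / 11 * (u + u1) := by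
        have : r * (u + u1 - v) ≤ r * (u + u1) := by nlinarith
        nlinarith
      have b2 : r ^ 2 * (u + u1 - 2 * v) ≤ 49 / 121 * (u + u1) := by
        have : r ^ 2 * (u + u1 - 2 * v) ≤ r ^ 2 * (u + u1) := by nlinarith [sq_nonneg r]
        nlinarith
      linarith
    have a2 : (1 - s) * (3 * (u + u1) + 3 * r * (u + u1 - v) + r ^ 2 * (u + u1 - 2 * v))
        ≤ (1 - s) * ((3 + 21 / 11 + 49 / 121) * (u + u1)) :=
      mul_le_mul_of_nonneg_left a1 h4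
    nlinarith
  nlinarith [mul_nonneg h3 (sub_nonneg.2 key)]

/-- `me1` is concave in `v` -/
theorem me1_conc {s r u v v1 a K : ℝ} (hs : s ≤ 1) (hs0 : 18 / 25 ≤ s)
    (hv0 : 0 ≤ v) (h : v ≤ v1) (h1 : 0 < v1) (c0 : K ≤ a + me1 s r u 0)
    (c1 : K ≤ a + me1 s r u v1) : K ≤ a + me1 s r u v := by
  have hC : 0 ≤ s / 2 + (1 - s) / 6 * r ^ 2 - (1 - s) / 3 := by
    have : 0 ≤ (1 - s) / 6 * r ^ 2 := by
      have : 0 ≤ 1 - s := by linarith
      positivity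
    linarith
  have e : v1 * (a + me1 s r u v) = (v1 - v) * (a + me1 s r u 0) + v * (a + me1 s r u v1)
      + (s / 2 + (1 - s) / 6 * r ^ 2 - (1 - s) / 3) * (v * v1 * (v1 - v)) := by
    unfold me1; ring
  have h2 : 0 ≤ v * v1 * (v1 - v) := by
    have : 0 ≤ v1 - v := by linarith
    positivity
  have h3 : v1 * K ≤ v1 * (a + me1 s r u v) := by
    rw [e]
    nlinarith [mul_le_mul_of_nonneg_left c0 (show 0 ≤ v1 - v by linarith),
      mul_le_mul_of_nonneg_left c1 hv0, mul_nonneg hC h2]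
  exact le_of_mul_le_mul_left h3 h1

/-- `hj1 + me2` is concave in `u` -/
theorem j1m2_conc {s u ul u1 v K : ℝ} (hs : s ≤ 1) (h : ul ≤ u) (h' : u ≤ u1) (hlt : ul < u1)
    (c0 : K ≤ hj1 s ul + me2 s ul v) (c1 : K ≤ hj1 s u1 + me2 s u1 v) :
    K ≤ hj1 s u + me2 s u v := by
  have hC : 0 ≤ 11 / 48 - (s - 1 / 2) / 3 := by linarith
  have e : (u1 - ul) * (hj1 s u + me2 s u v) = (u1 - u) * (hj1 s ul + me2 s ul v)
      + (u - ul) * (hj1 s u1 + me2 s u1 v)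
      + (11 / 48 - (s - 1 / 2) / 3) * ((u - ul) * (u1 - u) * (u1 - ul)) := by
    unfold hj1 me2; ring
  have h1 : 0 ≤ u1 - u := by linarith
  have h2 : 0 ≤ u - ul := by linarith
  have h3 : 0 < u1 - ul := by linarith
  have h4 : 0 ≤ (u - ul) * (u1 - u) * (u1 - ul) := by positivity
  have h5 : (u1 - ul) * K ≤ (u1 - ul) * (hj1 s u + me2 s u v) := by
    rw [e]
    nlinarith [mul_le_mul_of_nonneg_left c0 h1, mul_le_mul_of_nonneg_left c1 h2, mul_nonneg hC h4]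
  exact le_of_mul_le_mul_left h5 h3

/-- the conditions at a corner -/
structure Corner (s r K ul u1 v1 : ℝ) : Prop where
  u1l : 2 / 3 ≤ u1
  v1p : 0 < v1
  v1u : v1 ≤ u1
  lt : ul < u1
  low : 2 * s * ul ≤ v1 + (2 * s - 1)
  c11 : K ≤ hj1 s u1 + me1 s r u1 v1
  c10 : K ≤ hj1 s u1 + me1 s r u1 0
  c21 : K ≤ hj2 u1 + me1 s r u1 v1
  c20 : K ≤ hj2 u1 + me1 s r u1 0
  c12 : K ≤ hj1 s u1 + me2 s u1 v1
  cl2 : K ≤ hj1 s ul + me2 s ul v1
  c22 : K ≤ hj2 u1 + me2 s u1 v1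

theorem core {s r K ul u1 v1 u v H J M E I : ℝ} (hc : Corner s r K ul u1 v1)
    (hs0 : 18 / 25 ≤ s) (hs : s ≤ 1) (hr0 : 0 ≤ r) (hr : r ≤ 7 / 11)
    (hv : 0 ≤ v) (hvu : v ≤ u) (hu : u ≤ 1) (hcc : v + (2 * s - 1) ≤ 2 * s * u)
    (hH : (7 + 4 * u + u ^ 2) / 48 ≤ H) (hJ : (1 + 4 * u + 7 * u ^ 2) / 48 ≤ J)
    (hA : 3 / 2 * s ≤ u ^ 2 + 4 * J) (hM : (s - 1 / 2) * (u ^ 2 + u * v + v ^ 2) / 3 ≤ M)
    (hE : (1 - s) * v ^ 2 / 3 ≤ E) (hB : 3 / 2 * s ≤ 2 * s * v ^ 2 + 4 * (I + M))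
    (hI : I ≤ (1 - s) / 6 * (3 * u ^ 2 + 3 * r * u * (u - v) + r ^ 2 * (u - v) ^ 2)) :
    K ≤ H + J + M + E := by
  have hu0 : 0 ≤ u := hv.trans hvu
  have g1 : hj1 s u ≤ H + J := by unfold hj1; linarith
  have g2 : hj2 u ≤ H + J := by unfold hj2; linarith
  have g3 : me1 s r u v ≤ M + E := by unfold me1; linarith
  have g4 : me2 s u v ≤ M + E := by unfold me2; linarith
  have hu1 : 0 ≤ u1 := by linarith [hc.u1l]
  rcases le_total u u1 with a | a <;> rcases le_total v v1 with b | b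
  · have h1 := me1_conc hs hs0 hv b hc.v1p hc.c10 hc.c11
    have h2 := hj1_anti (s := s) hc.u1l hu0 a
    have h3 := me1_anti hs hr0 (by linarith) hv hvu a
    linarith
  · have h1 : ul ≤ u := by
      have h4 : 2 * s * ul ≤ 2 * s * u := by linarith [hc.low]
      exact le_of_mul_le_mul_left h4 (by linarith)
    have h2 := j1m2_conc hs h1 a hc.lt hc.cl2 hc.c12
    have h3 := me2_mono hs (by linarith) hu0 hc.v1p.le b
    linarith
  · have h1 := me1_conc hs hs0 hv b hc.v1p hc.c20 hc.c21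
    have h2 := j2m1_mono (v := v) hs hs0 hr0 hr hv (b.trans hc.v1u) a hu
    linarith
  · have h2 := hj2_mono hu1 a
    have h3 := me2_mono (u := u) hs (by linarith) hu0 hc.v1p.le b
    have h4 : me2 s u1 v1 ≤ me2 s u v1 := by
      unfold me2
      have e : 0 ≤ (s - 1 / 2) * ((u - u1) * (u + u1 + v1)) / 3 := by
        have e1 : 0 ≤ s - 1 / 2 := by linarith
        have e2 : 0 ≤ u - u1 := by linarith
        have e3 := hc.v1p
        positivity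
      nlinarith
    linarith [hc.c22]

/-- short periods: only the second failure is used -/
theorem short {s v H S E : ℝ} (hs0 : 1 / 2 ≤ s) (hs : s ≤ 18 / 25) (hv : 0 ≤ v) (hv1 : v ≤ 1)
    (hH : s * (7 + 4 * v + v ^ 2) / 24 ≤ H) (hS : s * (1 + 4 * v + 7 * v ^ 2) / 24 ≤ S)
    (hE : (1 - s) * v ^ 2 / 3 ≤ E) (hB : 3 / 2 * s ≤ 2 * s * v ^ 2 + 4 * S) :
    0.658 * s ≤ H + S + E := by
  rcases le_total v 0.5519 with a | a
  · nlinarith [mul_nonneg hv (sub_nonneg.2 a), mul_nonneg (sub_nonneg.2 hs0) (sub_nonneg.2 a),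
      mul_nonneg (mul_nonneg hv (sub_nonneg.2 a)) (sub_nonneg.2 hs),
      mul_nonneg (mul_nonneg hv (sub_nonneg.2 a)) (sub_nonneg.2 hs0),
      mul_nonneg hv (sub_nonneg.2 hs), mul_nonneg hv (sub_nonneg.2 hs0)]
  · nlinarith [mul_nonneg (sub_nonneg.2 a) (sub_nonneg.2 hs),
      mul_nonneg (sub_nonneg.2 a) (sub_nonneg.2 hs0)]

end Pool.Agent.Q265.DL
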