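import Pool.Agent.Q265.DL.Core

/-!
# The corners
-/

namespace Pool.Agent.Q265.DL

/-- `me1` without denominators -/
noncomputable def me1p (s u v : ℝ) : ℝ :=
  3 / 8 * s * (2 * s - 1) ^ 2 - s * v ^ 2 / 2 * (2 * s - 1) ^ 2
    - (1 - s) / 6 * (3 * u ^ 2 * (2 * s - 1) ^ 2 + 3 * ((1 - s) * (2 * s - 1)) * u * (u - v)
      + (1 - s) ^ 2 * (u - v) ^ 2)
    + (1 - s) * v ^ 2 / 3 * (2 * s - 1) ^ 2

theorem me1_mul {s : ℝ} (h : 2 * s - 1 ≠ 0) (u v : ℝ) :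
    (2 * s - 1) ^ 2 * me1 s ((1 - s) / (2 * s - 1)) u v = me1p s u v := by
  unfold me1 me1p
  field_simp

theorem le_of_D {s K a u v : ℝ} (h : 0 < 2 * s - 1)
    (h2 : 0 ≤ (2 * s - 1) ^ 2 * (a - K) + me1p s u v) :
    K ≤ a + me1 s ((1 - s) / (2 * s - 1)) u v := by
  rw [← me1_mul h.ne'] at h2
  have h3 : 0 ≤ (2 * s - 1) ^ 2 * (a - K + me1 s ((1 - s) / (2 * s - 1)) u v) := by
    calc (0 : ℝ) ≤ _ := h2
      _ = _ := by ring
  have h4 := nonneg_of_mul_nonneg_right h3 (by positivity : 0 < (2 * s - 1) ^ 2)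
  linarith

theorem corner1 {s : ℝ} (h0 : (9 / 10) ≤ s) (h1 : s ≤ 1) :
    Corner s ((1 - s) / (2 * s - 1)) (6557 / 10000 * s) (74 / 100 - 1 / 4 * (1 - s))
      (8465 / 10000 - 511 / 1000 * (1 - s))
      (5223 / 10000 + 78 / 1000 * (1 - s)) := by
  have y0 : 0 ≤ (1 - s) - 0 := by linarith
  have y1 : 0 ≤ (1 / 10) - (1 - s) := by linarith
  have hD : 0 < 2 * s - 1 := by linarith
  refine ⟨by linarith, by linarith, by linarith, by linarith, by nlinarith, ?_, ?_, ?_, ?_, ?_, ?_, ?_⟩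
  · apply le_of_D hD
    have e : (2 * s - 1) ^ 2 * (hj1 s (8465 / 10000 - 511 / 1000 * (1 - s)) - (6557 / 10000 * s)) + me1p s (8465 / 10000 - 511 / 1000 * (1 - s)) (5223 / 10000 + 78 / 1000 * (1 - s)) =
        (48308029 / 48000) * ((1 / 10) - (1 - s)) ^ 5 +
        (846327637 / 240000) * ((1 - s) - 0) ^ 1 * ((1 / 10) - (1 - s)) ^ 4 +
        (1446950081 / 300000) * ((1 - s) - 0) ^ 2 * ((1 / 10) - (1 - s)) ^ 3 +
        (9608041703 / 3000000) * ((1 - s) - 0) ^ 3 * ((1 / 10) - (1 - s)) ^ 2 +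
        (768184807 / 750000) * ((1 - s) - 0) ^ 4 * ((1 / 10) - (1 - s)) ^ 1 +
        (747156551 / 6000000) * ((1 - s) - 0) ^ 5 := by
      unfold hj1 me1p; ring
    rw [e]; positivity
  · apply le_of_D hD
    have e : (2 * s - 1) ^ 2 * (hj1 s (8465 / 10000 - 511 / 1000 * (1 - s)) - (6557 / 10000 * s)) + me1p s (8465 / 10000 - 511 / 1000 * (1 - s)) 0 =
        (28120861 / 1920) * ((1 / 10) - (1 - s)) ^ 5 +
        (618276721 / 9600) * ((1 - s) - 0) ^ 1 * ((1 / 10) - (1 - s)) ^ 4 +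
        (2710569661 / 24000) * ((1 - s) - 0) ^ 2 * ((1 / 10) - (1 - s)) ^ 3 +
        (189471623 / 1920) * ((1 - s) - 0) ^ 3 * ((1 / 10) - (1 - s)) ^ 2 +
        (12882172261 / 300000) * ((1 - s) - 0) ^ 4 * ((1 / 10) - (1 - s)) ^ 1 +
        (11159987687 / 1500000) * ((1 - s) - 0) ^ 5 := by
      unfold hj1 me1p; ring
    rw [e]; positivity
  · apply le_of_D hD
    have e : (2 * s - 1) ^ 2 * (hj2 (8465 / 10000 - 511 / 1000 * (1 - s)) - (6557 / 10000 * s)) + me1p s (8465 / 10000 - 511 / 1000 * (1 - s)) (5223 / 10000 + 78 / 1000 * (1 - s)) =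
        (3023519 / 3000) * ((1 / 10) - (1 - s)) ^ 5 +
        (102978889 / 30000) * ((1 - s) - 0) ^ 1 * ((1 / 10) - (1 - s)) ^ 4 +
        (1373258881 / 300000) * ((1 - s) - 0) ^ 2 * ((1 / 10) - (1 - s)) ^ 3 +
        (2997050351 / 1000000) * ((1 - s) - 0) ^ 3 * ((1 / 10) - (1 - s)) ^ 2 +
        (728983747 / 750000) * ((1 - s) - 0) ^ 4 * ((1 / 10) - (1 - s)) ^ 1 +
        (764452871 / 6000000) * ((1 - s) - 0) ^ 5 := by
      unfold hj2 me1p; ring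
    rw [e]; positivity
  · apply le_of_D hD
    have e : (2 * s - 1) ^ 2 * (hj2 (8465 / 10000 - 511 / 1000 * (1 - s)) - (6557 / 10000 * s)) + me1p s (8465 / 10000 - 511 / 1000 * (1 - s)) 0 =
        (3515449 / 240) * ((1 / 10) - (1 - s)) ^ 5 +
        (30868843 / 480) * ((1 - s) - 0) ^ 1 * ((1 / 10) - (1 - s)) ^ 4 +
        (540934873 / 4800) * ((1 - s) - 0) ^ 2 * ((1 / 10) - (1 - s)) ^ 3 +
        (7878200541 / 80000) * ((1 - s) - 0) ^ 3 * ((1 / 10) - (1 - s)) ^ 2 +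
        (12866491837 / 300000) * ((1 - s) - 0) ^ 4 * ((1 / 10) - (1 - s)) ^ 1 +
        (11164311767 / 1500000) * ((1 - s) - 0) ^ 5 := by
      unfold hj2 me1p; ring
    rw [e]; positivity
  · have e : hj1 s (8465 / 10000 - 511 / 1000 * (1 - s)) + me2 s (8465 / 10000 - 511 / 1000 * (1 - s)) (5223 / 10000 + 78 / 1000 * (1 - s)) - (6557 / 10000 * s) =
        (16070239 / 1600000) * ((1 / 10) - (1 - s)) ^ 3 +
        (89940409 / 4800000) * ((1 - s) - 0) ^ 1 * ((1 / 10) - (1 - s)) ^ 2 +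
        (5338643 / 500000) * ((1 - s) - 0) ^ 2 * ((1 / 10) - (1 - s)) ^ 1 +
        (458363 / 240000) * ((1 - s) - 0) ^ 3 := by
      unfold hj1 me2; ring
    have e2 : 0 ≤ hj1 s (8465 / 10000 - 511 / 1000 * (1 - s)) + me2 s (8465 / 10000 - 511 / 1000 * (1 - s)) (5223 / 10000 + 78 / 1000 * (1 - s)) - (6557 / 10000 * s) := by rw [e]; positivity
    linarith
  · have e : hj1 s (74 / 100 - 1 / 4 * (1 - s)) + me2 s (74 / 100 - 1 / 4 * (1 - s)) (5223 / 10000 + 78 / 1000 * (1 - s)) - (6557 / 10000 * s) =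
        (491643 / 200000) * ((1 / 10) - (1 - s)) ^ 3 +
        (561697 / 120000) * ((1 - s) - 0) ^ 1 * ((1 / 10) - (1 - s)) ^ 2 +
        (1360693 / 400000) * ((1 - s) - 0) ^ 2 * ((1 / 10) - (1 - s)) ^ 1 +
        (1397767 / 1200000) * ((1 - s) - 0) ^ 3 := by
      unfold hj1 me2; ring
    have e2 : 0 ≤ hj1 s (74 / 100 - 1 / 4 * (1 - s)) + me2 s (74 / 100 - 1 / 4 * (1 - s)) (5223 / 10000 + 78 / 1000 * (1 - s)) - (6557 / 10000 * s) := by rw [e]; positivity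
    linarith
  · have e : hj2 (8465 / 10000 - 511 / 1000 * (1 - s)) + me2 s (8465 / 10000 - 511 / 1000 * (1 - s)) (5223 / 10000 + 78 / 1000 * (1 - s)) - (6557 / 10000 * s) =
        (3017437 / 300000) * ((1 / 10) - (1 - s)) ^ 3 +
        (10666483 / 600000) * ((1 - s) - 0) ^ 1 * ((1 / 10) - (1 - s)) ^ 2 +
        (9747991 / 1000000) * ((1 - s) - 0) ^ 2 * ((1 / 10) - (1 - s)) ^ 1 +
        (1172933 / 600000) * ((1 - s) - 0) ^ 3 := by
      unfold hj2 me2; ring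
    have e2 : 0 ≤ hj2 (8465 / 10000 - 511 / 1000 * (1 - s)) + me2 s (8465 / 10000 - 511 / 1000 * (1 - s)) (5223 / 10000 + 78 / 1000 * (1 - s)) - (6557 / 10000 * s) := by rw [e]; positivity
    linarith

theorem corner2 {s : ℝ} (h0 : (4 / 5) ≤ s) (h1 : s ≤ (9 / 10)) :
    Corner s ((1 - s) / (2 * s - 1)) (6557 / 10000 * s) (74 / 100 - 1 / 4 * (1 - s))
      (8499 / 10000 - 542 / 1000 * (1 - s))
      (5215 / 10000 + 85 / 1000 * (1 - s)) := by
  have y0 : 0 ≤ (1 - s) - (1 / 10) := by linarith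
  have y1 : 0 ≤ (1 / 5) - (1 - s) := by linarith
  have hD : 0 < 2 * s - 1 := by linarith
  refine ⟨by linarith, by linarith, by linarith, by linarith, by nlinarith, ?_, ?_, ?_, ?_, ?_, ?_, ?_⟩
  · apply le_of_D hD
    have e : (2 * s - 1) ^ 2 * (hj1 s (8499 / 10000 - 542 / 1000 * (1 - s)) - (6557 / 10000 * s)) + me1p s (8499 / 10000 - 542 / 1000 * (1 - s)) (5215 / 10000 + 85 / 1000 * (1 - s)) =
        (721572247 / 6000000) * ((1 / 5) - (1 - s)) ^ 5 +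
        (380044973 / 1500000) * ((1 - s) - (1 / 10)) ^ 1 * ((1 / 5) - (1 - s)) ^ 4 +
        (915840379 / 6000000) * ((1 - s) - (1 / 10)) ^ 2 * ((1 / 5) - (1 - s)) ^ 3 +
        (41904097 / 2000000) * ((1 - s) - (1 / 10)) ^ 3 * ((1 / 5) - (1 - s)) ^ 2 +
        (2577071 / 240000) * ((1 - s) - (1 / 10)) ^ 4 * ((1 / 5) - (1 - s)) ^ 1 +
        (2168497 / 240000) * ((1 - s) - (1 / 10)) ^ 5 := by
      unfold hj1 me1p; ring
    rw [e]; positivity
  · apply le_of_D hD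
    have e : (2 * s - 1) ^ 2 * (hj1 s (8499 / 10000 - 542 / 1000 * (1 - s)) - (6557 / 10000 * s)) + me1p s (8499 / 10000 - 542 / 1000 * (1 - s)) 0 =
        (44597187647 / 6000000) * ((1 / 5) - (1 - s)) ^ 5 +
        (94498534861 / 3000000) * ((1 - s) - (1 / 10)) ^ 1 * ((1 / 5) - (1 - s)) ^ 4 +
        (39725948273 / 750000) * ((1 - s) - (1 / 10)) ^ 2 * ((1 / 5) - (1 - s)) ^ 3 +
        (88200459917 / 2000000) * ((1 - s) - (1 / 10)) ^ 3 * ((1 / 5) - (1 - s)) ^ 2 +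
        (21769366403 / 1200000) * ((1 - s) - (1 / 10)) ^ 4 * ((1 / 5) - (1 - s)) ^ 1 +
        (706044001 / 240000) * ((1 - s) - (1 / 10)) ^ 5 := by
      unfold hj1 me1p; ring
    rw [e]; positivity
  · apply le_of_D hD
    have e : (2 * s - 1) ^ 2 * (hj2 (8499 / 10000 - 542 / 1000 * (1 - s)) - (6557 / 10000 * s)) + me1p s (8499 / 10000 - 542 / 1000 * (1 - s)) (5215 / 10000 + 85 / 1000 * (1 - s)) =
        (821022727 / 600000) * ((1 / 5) - (1 - s)) ^ 6 +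
        (781246673 / 200000) * ((1 - s) - (1 / 10)) ^ 1 * ((1 / 5) - (1 - s)) ^ 5 +
        (1064717143 / 300000) * ((1 - s) - (1 / 10)) ^ 2 * ((1 / 5) - (1 - s)) ^ 4 +
        (53326703 / 60000) * ((1 - s) - (1 / 10)) ^ 3 * ((1 / 5) - (1 - s)) ^ 3 +
        (15206809 / 150000) * ((1 - s) - (1 / 10)) ^ 4 * ((1 / 5) - (1 - s)) ^ 2 +
        (20441 / 50) * ((1 - s) - (1 / 10)) ^ 5 * ((1 / 5) - (1 - s)) ^ 1 +
        (277537 / 1500) * ((1 - s) - (1 / 10)) ^ 6 := by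
      unfold hj2 me1p; ring
    rw [e]; positivity
  · apply le_of_D hD
    have e : (2 * s - 1) ^ 2 * (hj2 (8499 / 10000 - 542 / 1000 * (1 - s)) - (6557 / 10000 * s)) + me1p s (8499 / 10000 - 542 / 1000 * (1 - s)) 0 =
        (44696638127 / 6000000) * ((1 / 5) - (1 - s)) ^ 5 +
        (94499803561 / 3000000) * ((1 - s) - (1 / 10)) ^ 1 * ((1 / 5) - (1 - s)) ^ 4 +
        (105832820933 / 2000000) * ((1 - s) - (1 / 10)) ^ 2 * ((1 / 5) - (1 - s)) ^ 3 +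
        (33050277187 / 750000) * ((1 - s) - (1 / 10)) ^ 3 * ((1 / 5) - (1 - s)) ^ 2 +
        (2722917061 / 150000) * ((1 - s) - (1 / 10)) ^ 4 * ((1 / 5) - (1 - s)) ^ 1 +
        (11067439 / 3750) * ((1 - s) - (1 / 10)) ^ 5 := by
      unfold hj2 me1p; ring
    rw [e]; positivity
  · have e : hj1 s (8499 / 10000 - 542 / 1000 * (1 - s)) + me2 s (8499 / 10000 - 542 / 1000 * (1 - s)) (5215 / 10000 + 85 / 1000 * (1 - s)) - (6557 / 10000 * s) =
        (45168673 / 2400) * ((1 / 5) - (1 - s)) ^ 7 +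
        (67238961 / 800) * ((1 - s) - (1 / 10)) ^ 1 * ((1 / 5) - (1 - s)) ^ 6 +
        (113463499 / 800) * ((1 - s) - (1 / 10)) ^ 2 * ((1 / 5) - (1 - s)) ^ 5 +
        (255121243 / 2400) * ((1 - s) - (1 / 10)) ^ 3 * ((1 / 5) - (1 - s)) ^ 4 +
        (70014107 / 2400) * ((1 - s) - (1 / 10)) ^ 4 * ((1 / 5) - (1 - s)) ^ 3 +
        (2002907 / 800) * ((1 - s) - (1 / 10)) ^ 5 * ((1 / 5) - (1 - s)) ^ 2 +
        (975213 / 160) * ((1 - s) - (1 / 10)) ^ 6 * ((1 / 5) - (1 - s)) ^ 1 +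
        (294185 / 96) * ((1 - s) - (1 / 10)) ^ 7 := by
      unfold hj1 me2; ring
    have e2 : 0 ≤ hj1 s (8499 / 10000 - 542 / 1000 * (1 - s)) + me2 s (8499 / 10000 - 542 / 1000 * (1 - s)) (5215 / 10000 + 85 / 1000 * (1 - s)) - (6557 / 10000 * s) := by rw [e]; positivity
    linarith
  · have e : hj1 s (74 / 100 - 1 / 4 * (1 - s)) + me2 s (74 / 100 - 1 / 4 * (1 - s)) (5215 / 10000 + 85 / 1000 * (1 - s)) - (6557 / 10000 * s) =
        (10921 / 9600) * ((1 / 5) - (1 - s)) ^ 3 +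
        (177521 / 48000) * ((1 - s) - (1 / 10)) ^ 1 * ((1 / 5) - (1 - s)) ^ 2 +
        (128123 / 24000) * ((1 - s) - (1 / 10)) ^ 2 * ((1 / 5) - (1 - s)) ^ 1 +
        (13267 / 4800) * ((1 - s) - (1 / 10)) ^ 3 := by
      unfold hj1 me2; ring
    have e2 : 0 ≤ hj1 s (74 / 100 - 1 / 4 * (1 - s)) + me2 s (74 / 100 - 1 / 4 * (1 - s)) (5215 / 10000 + 85 / 1000 * (1 - s)) - (6557 / 10000 * s) := by rw [e]; positivity
    linarith
  · have e : hj2 (8499 / 10000 - 542 / 1000 * (1 - s)) + me2 s (8499 / 10000 - 542 / 1000 * (1 - s)) (5215 / 10000 + 85 / 1000 * (1 - s)) - (6557 / 10000 * s) =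
        (6423041 / 30) * ((1 / 5) - (1 - s)) ^ 8 +
        (33599867 / 30) * ((1 - s) - (1 / 10)) ^ 1 * ((1 / 5) - (1 - s)) ^ 7 +
        (13734257 / 6) * ((1 - s) - (1 / 10)) ^ 2 * ((1 / 5) - (1 - s)) ^ 6 +
        (13174621 / 6) * ((1 - s) - (1 / 10)) ^ 3 * ((1 / 5) - (1 - s)) ^ 5 +
        (1711915 / 2) * ((1 - s) - (1 / 10)) ^ 4 * ((1 / 5) - (1 - s)) ^ 4 +
        (368167 / 10) * ((1 - s) - (1 / 10)) ^ 5 * ((1 / 5) - (1 - s)) ^ 3 +
        (1218329 / 10) * ((1 - s) - (1 / 10)) ^ 6 * ((1 / 5) - (1 - s)) ^ 2 +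
        (1111763 / 6) * ((1 - s) - (1 / 10)) ^ 7 * ((1 / 5) - (1 - s)) ^ 1 +
        (170825 / 3) * ((1 - s) - (1 / 10)) ^ 8 := by
      unfold hj2 me2; ring
    have e2 : 0 ≤ hj2 (8499 / 10000 - 542 / 1000 * (1 - s)) + me2 s (8499 / 10000 - 542 / 1000 * (1 - s)) (5215 / 10000 + 85 / 1000 * (1 - s)) - (6557 / 10000 * s) := by rw [e]; positivity
    linarith

theorem corner3 {s : ℝ} (h0 : (18 / 25) ≤ s) (h1 : s ≤ (4 / 5)) :
    Corner s ((1 - s) / (2 * s - 1)) (6557 / 10000 * s) (74 / 100 - 1 / 4 * (1 - s))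
      (8561 / 10000 - 575 / 1000 * (1 - s))
      (5189 / 10000 + 99 / 1000 * (1 - s)) := by
  have y0 : 0 ≤ (1 - s) - (1 / 5) := by linarith
  have y1 : 0 ≤ (7 / 25) - (1 - s) := by linarith
  have hD : 0 < 2 * s - 1 := by linarith
  refine ⟨by linarith, by linarith, by linarith, by linarith, by nlinarith, ?_, ?_, ?_, ?_, ?_, ?_, ?_⟩
  · apply le_of_D hD
    have e : (2 * s - 1) ^ 2 * (hj1 s (8561 / 10000 - 575 / 1000 * (1 - s)) - (6557 / 10000 * s)) + me1p s (8561 / 10000 - 575 / 1000 * (1 - s)) (5189 / 10000 + 99 / 1000 * (1 - s)) =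
        (77646673 / 1966080) * ((7 / 25) - (1 - s)) ^ 5 +
        (3597723209 / 9830400) * ((1 - s) - (1 / 5)) ^ 1 * ((7 / 25) - (1 - s)) ^ 4 +
        (29127903037 / 24576000) * ((1 - s) - (1 / 5)) ^ 2 * ((7 / 25) - (1 - s)) ^ 3 +
        (67553648763 / 40960000) * ((1 - s) - (1 / 5)) ^ 3 * ((7 / 25) - (1 - s)) ^ 2 +
        (420644554999 / 409600000) * ((1 - s) - (1 / 5)) ^ 4 * ((7 / 25) - (1 - s)) ^ 1 +
        (483573183447 / 2048000000) * ((1 - s) - (1 / 5)) ^ 5 := by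
      unfold hj1 me1p; ring
    rw [e]; positivity
  · apply le_of_D hD
    have e : (2 * s - 1) ^ 2 * (hj1 s (8561 / 10000 - 575 / 1000 * (1 - s)) - (6557 / 10000 * s)) + me1p s (8561 / 10000 - 575 / 1000 * (1 - s)) 0 =
        (17690809489 / 1966080) * ((7 / 25) - (1 - s)) ^ 5 +
        (120382599043 / 3276800) * ((1 - s) - (1 / 5)) ^ 1 * ((7 / 25) - (1 - s)) ^ 4 +
        (481606966463 / 8192000) * ((1 - s) - (1 / 5)) ^ 2 * ((7 / 25) - (1 - s)) ^ 3 +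
        (5624906216081 / 122880000) * ((1 - s) - (1 / 5)) ^ 3 * ((7 / 25) - (1 - s)) ^ 2 +
        (4215957686689 / 245760000) * ((1 - s) - (1 / 5)) ^ 4 * ((7 / 25) - (1 - s)) ^ 1 +
        (596915709517 / 245760000) * ((1 - s) - (1 / 5)) ^ 5 := by
      unfold hj1 me1p; ring
    rw [e]; positivity
  · apply le_of_D hD
    have e : (2 * s - 1) ^ 2 * (hj2 (8561 / 10000 - 575 / 1000 * (1 - s)) - (6557 / 10000 * s)) + me1p s (8561 / 10000 - 575 / 1000 * (1 - s)) (5189 / 10000 + 99 / 1000 * (1 - s)) =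
        (598001 / 15360) * ((7 / 25) - (1 - s)) ^ 5 +
        (83926147 / 307200) * ((1 - s) - (1 / 5)) ^ 1 * ((7 / 25) - (1 - s)) ^ 4 +
        (368572423 / 384000) * ((1 - s) - (1 / 5)) ^ 2 * ((7 / 25) - (1 - s)) ^ 3 +
        (1879894459 / 1280000) * ((1 - s) - (1 / 5)) ^ 3 * ((7 / 25) - (1 - s)) ^ 2 +
        (4704864437 / 4800000) * ((1 - s) - (1 / 5)) ^ 4 * ((7 / 25) - (1 - s)) ^ 1 +
        (45456976163 / 192000000) * ((1 - s) - (1 / 5)) ^ 5 := by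
      unfold hj2 me1p; ring
    rw [e]; positivity
  · apply le_of_D hD
    have e : (2 * s - 1) ^ 2 * (hj2 (8561 / 10000 - 575 / 1000 * (1 - s)) - (6557 / 10000 * s)) + me1p s (8561 / 10000 - 575 / 1000 * (1 - s)) 0 =
        (276401671 / 30720) * ((7 / 25) - (1 - s)) ^ 5 +
        (3752455319 / 102400) * ((1 - s) - (1 / 5)) ^ 1 * ((7 / 25) - (1 - s)) ^ 4 +
        (7496258497 / 128000) * ((1 - s) - (1 / 5)) ^ 2 * ((7 / 25) - (1 - s)) ^ 3 +
        (87542424029 / 1920000) * ((1 - s) - (1 / 5)) ^ 3 * ((7 / 25) - (1 - s)) ^ 2 +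
        (65694687701 / 3840000) * ((1 - s) - (1 / 5)) ^ 4 * ((7 / 25) - (1 - s)) ^ 1 +
        (18658495531 / 7680000) * ((1 - s) - (1 / 5)) ^ 5 := by
      unfold hj2 me1p; ring
    rw [e]; positivity
  · have e : hj1 s (8561 / 10000 - 575 / 1000 * (1 - s)) + me2 s (8561 / 10000 - 575 / 1000 * (1 - s)) (5189 / 10000 + 99 / 1000 * (1 - s)) - (6557 / 10000 * s) =
        (9093577 / 12288000) * ((7 / 25) - (1 - s)) ^ 3 +
        (112197621 / 20480000) * ((1 - s) - (1 / 5)) ^ 1 * ((7 / 25) - (1 - s)) ^ 2 +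
        (1299268001 / 102400000) * ((1 - s) - (1 / 5)) ^ 2 * ((7 / 25) - (1 - s)) ^ 1 +
        (804717411 / 102400000) * ((1 - s) - (1 / 5)) ^ 3 := by
      unfold hj1 me2; ring
    have e2 : 0 ≤ hj1 s (8561 / 10000 - 575 / 1000 * (1 - s)) + me2 s (8561 / 10000 - 575 / 1000 * (1 - s)) (5189 / 10000 + 99 / 1000 * (1 - s)) - (6557 / 10000 * s) := by rw [e]; positivity
    linarith
  · have e : hj1 s (74 / 100 - 1 / 4 * (1 - s)) + me2 s (74 / 100 - 1 / 4 * (1 - s)) (5189 / 10000 + 99 / 1000 * (1 - s)) - (6557 / 10000 * s) =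
        (562733 / 102400) * ((7 / 25) - (1 - s)) ^ 3 +
        (33235489 / 1536000) * ((1 - s) - (1 / 5)) ^ 1 * ((7 / 25) - (1 - s)) ^ 2 +
        (218047861 / 7680000) * ((1 - s) - (1 / 5)) ^ 2 * ((7 / 25) - (1 - s)) ^ 1 +
        (93978751 / 7680000) * ((1 - s) - (1 / 5)) ^ 3 := by
      unfold hj1 me2; ring
    have e2 : 0 ≤ hj1 s (74 / 100 - 1 / 4 * (1 - s)) + me2 s (74 / 100 - 1 / 4 * (1 - s)) (5189 / 10000 + 99 / 1000 * (1 - s)) - (6557 / 10000 * s) := by rw [e]; positivity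
    linarith
  · have e : hj2 (8561 / 10000 - 575 / 1000 * (1 - s)) + me2 s (8561 / 10000 - 575 / 1000 * (1 - s)) (5189 / 10000 + 99 / 1000 * (1 - s)) - (6557 / 10000 * s) =
        (140173 / 192000) * ((7 / 25) - (1 - s)) ^ 3 +
        (1229939 / 320000) * ((1 - s) - (1 / 5)) ^ 1 * ((7 / 25) - (1 - s)) ^ 2 +
        (53204627 / 4800000) * ((1 - s) - (1 / 5)) ^ 2 * ((7 / 25) - (1 - s)) ^ 1 +
        (37821947 / 4800000) * ((1 - s) - (1 / 5)) ^ 3 := by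
      unfold hj2 me2; ring
    have e2 : 0 ≤ hj2 (8561 / 10000 - 575 / 1000 * (1 - s)) + me2 s (8561 / 10000 - 575 / 1000 * (1 - s)) (5189 / 10000 + 99 / 1000 * (1 - s)) - (6557 / 10000 * s) := by rw [e]; positivity
    linarith

theorem corner {s : ℝ} (h0 : 18 / 25 ≤ s) (h1 : s ≤ 1) :
    ∃ ul u1 v1, Corner s ((1 - s) / (2 * s - 1)) (6557 / 10000 * s) ul u1 v1 := by
  rcases le_total s (4 / 5) with h | h
  · exact ⟨_, _, _, corner3 (by linarith) (by linarith)⟩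
  · rcases le_total s (9 / 10) with h' | h'
    · exact ⟨_, _, _, corner2 (by linarith) (by linarith)⟩
    · exact ⟨_, _, _, corner1 (by linarith) (by linarith)⟩

end Pool.Agent.Q265.DL
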