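import Pool.Agent.TH219.DL.Real
import Pool.Agent.Q265.DL.Corner

/-!
# The profile inequality with the constant `0.437`
-/

namespace Pool.Agent.Q265.DL

open MeasureTheory intervalIntegral Pool.Agent.TH219.DL

variable {l : ℝ} {f : ℝ → ℝ}

/-- upper bound by the chord to the right -/
theorem upr (hf : Prof l f) {a b s : ℝ} (ha : 0 ≤ a) (hab : a < b) (hbs : b < s) (hs : s ≤ l) :
    ∫ t in a..b, f t ^ 2 ≤ (b - a) * ((f b + (b - a) / (s - b) * (f b - f s)) ^ 2
      + (f b + (b - a) / (s - b) * (f b - f s)) * f b + f b ^ 2) / 3 := by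
  rw [← lin_int a b _ _ hab]
  apply intervalIntegral.integral_mono_on hab.le
  · exact hf.int ha hab.le (by linarith)
  · apply Continuous.intervalIntegrable
    fun_prop
  · intro t ht
    apply pow_le_pow_left₀ (hf.nonneg t (ha.trans ht.1) (by linarith [ht.2]))
    have hst : 0 < s - t := by linarith [ht.2]
    have hsb : 0 < s - b := by linarith
    have hba : 0 < b - a := by linarith
    have h0 : 0 ≤ (b - t) / (s - t) := div_nonneg (by linarith [ht.2]) hst.le
    have h1 : (b - t) / (s - t) ≤ 1 := by rw [div_le_one hst]; linarith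
    have h := hf.conc t s ((b - t) / (s - t)) (ha.trans ht.1) (by linarith [ht.2])
      (by linarith) hs h0 h1
    have e : (1 - (b - t) / (s - t)) * t + (b - t) / (s - t) * s = b := by
      field_simp; ring
    rw [e] at h
    have h2 : (s - b) * f t + (b - t) * f s ≤ (s - t) * f b := by
      have h3 := mul_le_mul_of_nonneg_left h hst.le
      have h4 : (s - t) * ((1 - (b - t) / (s - t)) * f t + (b - t) / (s - t) * f s)
          = (s - b) * f t + (b - t) * f s := by
        field_simp; ring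
      rw [h4] at h3
      exact h3
    have h5 : f b + (b - a) / (s - b) * (f b - f s) + (f b - (f b + (b - a) / (s - b) *
        (f b - f s))) * ((t - a) / (b - a)) = ((s - t) * f b - (b - t) * f s) / (s - b) := by
      field_simp
      ring
    rw [h5, le_div_iff₀ hsb]
    linarith

/-- concavity between `0` and `s` -/
theorem chord (hf : Prof l f) {a s : ℝ} (ha : 0 ≤ a) (has : a ≤ s) (hs0 : 0 < s) (hs : s ≤ l) :
    s - a + a * f s ≤ s * f a := by
  have h0 : 0 ≤ a / s := div_nonneg ha hs0.le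
  have h1 : a / s ≤ 1 := by rw [div_le_one hs0]; exact has
  have h := hf.conc 0 s (a / s) le_rfl hf.l0.le hs0.le hs h0 h1
  have e : (1 - a / s) * 0 + a / s * s = a := by field_simp; ring
  rw [e, hf.one] at h
  have h3 := mul_le_mul_of_nonneg_left h hs0.le
  have h4 : s * ((1 - a / s) * 1 + a / s * f s) = s - a + a * f s := by field_simp
  rw [h4] at h3
  exact h3

theorem half_le (hf : Prof l f) : ∫ t in (l / 2)..l, f t ^ 2 ≤ ∫ t in (0 : ℝ)..(l / 2), f t ^ 2 := by
  have hl := hf.l0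
  calc ∫ t in (l / 2)..l, f t ^ 2 ≤ ∫ _ in (l / 2)..l, f (l / 2) ^ 2 := by
        apply intervalIntegral.integral_mono_on (by linarith)
          (hf.int (by linarith) (by linarith) (by linarith)) intervalIntegrable_const
        intro t ht
        exact pow_le_pow_left₀ (hf.nonneg t (by linarith [ht.1]) (by linarith [ht.2]))
          (hf.anti _ _ (by linarith) (by linarith [ht.1]) (by linarith [ht.2])) 2
    _ = ∫ _ in (0 : ℝ)..(l / 2), f (l / 2) ^ 2 := by
        rw [intervalIntegral.integral_const, intervalIntegral.integral_const, smul_eq_mul,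
          smul_eq_mul]
        ring
    _ ≤ _ := by
        apply intervalIntegral.integral_mono_on (by linarith) intervalIntegrable_const
          (hf.int (by linarith) (by linarith) (by linarith))
        intro t ht
        exact pow_le_pow_left₀ (hf.nonneg _ (by linarith) (by linarith))
          (hf.anti _ _ ht.1 (by linarith [ht.2]) (by linarith)) 2

theorem split3 (hf : Prof l f) {a b c d : ℝ} (h0 : 0 ≤ a) (h1 : a ≤ b) (h2 : b ≤ c) (h3 : c ≤ d)
    (h4 : d ≤ l) : ∫ t in a..d, f t ^ 2 = (∫ t in a..b, f t ^ 2) + (∫ t in b..c, f t ^ 2)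
      + ∫ t in c..d, f t ^ 2 := by
  rw [intervalIntegral.integral_add_adjacent_intervals (hf.int h0 h1 (by linarith))
    (hf.int (by linarith) h2 (by linarith)),
    intervalIntegral.integral_add_adjacent_intervals (hf.int h0 (by linarith) (by linarith))
    (hf.int (by linarith) h3 h4)]

/-- short periods -/
theorem caseShort (hf : Prof l f) {s : ℝ} (h1 : l / 2 ≤ s) (h2 : s ≤ 18 / 25 * l)
    (hB : 3 / 2 * s ≤ 2 * s * f s ^ 2 + 4 * ∫ t in (s / 2)..s, f t ^ 2) :
    0.658 * s ≤ ∫ t in (0 : ℝ)..l, f t ^ 2 := by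
  have hl := hf.l0
  have hs0 : 0 < s := by linarith
  rw [split3 hf le_rfl (show (0 : ℝ) ≤ s / 2 by linarith) (show s / 2 ≤ s by linarith)
    (show s ≤ l by linarith) le_rfl]
  have k1 := hf.low (a := 0) (b := s / 2) le_rfl (by linarith) (by linarith)
  have k2 := hf.low (a := s / 2) (b := s) (by linarith) (by linarith) (by linarith)
  have k3 := hf.low (a := s) (b := l) (by linarith) (by linarith) le_rfl
  have k4 := hf.half hs0 (by linarith)
  have k5 := hf.nonneg s hs0.le (by linarith)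
  have k6 := hf.nonneg l hl.le le_rfl
  have k7 := hf.le_one (s := s) hs0.le (by linarith)
  rw [hf.one] at k1
  set H := ∫ t in (0 : ℝ)..(s / 2), f t ^ 2
  set S := ∫ t in (s / 2)..s, f t ^ 2
  set E := ∫ t in s..l, f t ^ 2
  set v := f s
  set q := f (s / 2)
  obtain ⟨σ, hσ⟩ : ∃ j, s = l * j := ⟨s / l, by field_simp⟩
  obtain ⟨H', hH'⟩ : ∃ j, H = l * j := ⟨H / l, by field_simp⟩
  obtain ⟨S', hS'⟩ : ∃ j, S = l * j := ⟨S / l, by field_simp⟩
  obtain ⟨E', hE'⟩ : ∃ j, E = l * j := ⟨E / l, by field_simp⟩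
  have hq : (1 + v) / 2 ≤ q := by linarith
  have hqv : (1 + v) ^ 2 / 4 ≤ q ^ 2 := by nlinarith
  have q1 : l * (1 / 2) ≤ l * σ := by linarith
  have q2 : l * σ ≤ l * (18 / 25) := by linarith
  have c1 : 1 / 2 ≤ σ := le_of_mul_le_mul_left q1 hl
  have c2 : σ ≤ 18 / 25 := le_of_mul_le_mul_left q2 hl
  have c3 : σ * (7 + 4 * v + v ^ 2) / 24 ≤ H' := by
    have : l * (σ * (7 + 4 * v + v ^ 2) / 24) ≤ l * H' := by
      rw [← hH']
      calc l * (σ * (7 + 4 * v + v ^ 2) / 24) = s * (7 + 4 * v + v ^ 2) / 24 := by rw [hσ]; ring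
        _ ≤ (s / 2 - 0) * (1 ^ 2 + 1 * q + q ^ 2) / 3 := by nlinarith
        _ ≤ H := k1
    exact le_of_mul_le_mul_left this hl
  have c4 : σ * (1 + 4 * v + 7 * v ^ 2) / 24 ≤ S' := by
    have : l * (σ * (1 + 4 * v + 7 * v ^ 2) / 24) ≤ l * S' := by
      rw [← hS']
      calc l * (σ * (1 + 4 * v + 7 * v ^ 2) / 24) = s * (1 + 4 * v + 7 * v ^ 2) / 24 := by
            rw [hσ]; ring
        _ ≤ (s - s / 2) * (q ^ 2 + q * v + v ^ 2) / 3 := by
            have : (1 + v) / 2 * v ≤ q * v := mul_le_mul_of_nonneg_right hq k5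
            nlinarith
        _ ≤ S := k2
    exact le_of_mul_le_mul_left this hl
  have c5 : (1 - σ) * v ^ 2 / 3 ≤ E' := by
    have : l * ((1 - σ) * v ^ 2 / 3) ≤ l * E' := by
      rw [← hE']
      calc l * ((1 - σ) * v ^ 2 / 3) = (l - s) * v ^ 2 / 3 := by rw [hσ]; ring
        _ ≤ (l - s) * (v ^ 2 + v * f l + f l ^ 2) / 3 := by
            have h3 : 0 ≤ l - s := by linarith
            have h4 : 0 ≤ v * f l + f l ^ 2 := by positivity
            nlinarith [mul_nonneg h3 h4]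
        _ ≤ E := k3
    exact le_of_mul_le_mul_left this hl
  have c6 : 3 / 2 * σ ≤ 2 * σ * v ^ 2 + 4 * S' := by
    have : l * (3 / 2 * σ) ≤ l * (2 * σ * v ^ 2 + 4 * S') := by
      have e : l * (2 * σ * v ^ 2 + 4 * S') = 2 * s * v ^ 2 + 4 * S := by rw [hσ, hS']; ring
      rw [e]
      have e2 : l * (3 / 2 * σ) = 3 / 2 * s := by rw [hσ]; ring
      rw [e2]
      exact hB
    exact le_of_mul_le_mul_left this hl
  have := short c1 c2 k5 k7 c3 c4 c5 c6
  rw [hH', hS', hE']
  have h7 := mul_le_mul_of_nonneg_left this hl.le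
  calc 0.658 * s = l * (0.658 * σ) := by rw [hσ]; ring
    _ ≤ l * (H' + S' + E') := h7
    _ = _ := by ring

/-- long periods -/
theorem caseLong (hf : Prof l f) {s : ℝ} (h1 : 18 / 25 * l ≤ s) (h2 : s ≤ l)
    (hA : 3 / 2 * s ≤ l * f (l / 2) ^ 2 + 4 * ∫ t in (l / 4)..(l / 2), f t ^ 2)
    (hB : 3 / 2 * s ≤ 2 * s * f s ^ 2 + 4 * ∫ t in (s / 2)..s, f t ^ 2) :
    0.6557 * s ≤ ∫ t in (0 : ℝ)..l, f t ^ 2 := by
  have hl := hf.l0
  have hs0 : 0 < s := by linarith
  have e0 : ∫ t in (0 : ℝ)..l, f t ^ 2 = (∫ t in (0 : ℝ)..(l / 4), f t ^ 2)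
      + (∫ t in (l / 4)..(l / 2), f t ^ 2) + (∫ t in (l / 2)..s, f t ^ 2)
      + ∫ t in s..l, f t ^ 2 := by
    rw [split3 hf le_rfl (show (0 : ℝ) ≤ l / 4 by linarith) (show l / 4 ≤ l / 2 by linarith)
      (show l / 2 ≤ l by linarith) le_rfl, add_assoc _ _ (∫ t in s..l, f t ^ 2),
      intervalIntegral.integral_add_adjacent_intervals (hf.int (by linarith) (by linarith) h2)
        (hf.int (by linarith) h2 le_rfl)]
  have e1 : ∫ t in (s / 2)..s, f t ^ 2 = (∫ t in (s / 2)..(l / 2), f t ^ 2)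
      + ∫ t in (l / 2)..s, f t ^ 2 :=
    (intervalIntegral.integral_add_adjacent_intervals (hf.int (by linarith) (by linarith)
      (by linarith)) (hf.int (by linarith) (by linarith) h2)).symm
  have k1 := hf.low (a := 0) (b := l / 4) le_rfl (by linarith) (by linarith)
  have k2 := hf.low (a := l / 4) (b := l / 2) (by linarith) (by linarith) (by linarith)
  have k3 := hf.low (a := l / 2) (b := s) (by linarith) (by linarith) h2
  have k4 : (l - s) * f s ^ 2 / 3 ≤ ∫ t in s..l, f t ^ 2 := by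
    rcases eq_or_lt_of_le h2 with h | h
    · rw [h, intervalIntegral.integral_same]; simp
    · have k := hf.low (a := s) (b := l) (by linarith) h le_rfl
      have h3 : 0 ≤ l - s := by linarith
      have h4 : 0 ≤ f s * f l + f l ^ 2 := by
        have := hf.nonneg s hs0.le h2
        have := hf.nonneg l hl.le le_rfl
        positivity
      nlinarith [mul_nonneg h3 h4]
  have k5 := hf.nonneg s hs0.le h2
  have k6 := hf.half (s := l / 2) (by linarith) (by linarith)
  have k7 := hf.le_one (s := l / 2) (by linarith) (by linarith)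
  have k8 := hf.anti (l / 2) s (by linarith) (by linarith) h2
  have k9 := chord hf (a := l / 2) (s := s) (by linarith) (by linarith) hs0 h2
  have k10 : (∫ t in (s / 2)..(l / 2), f t ^ 2) ≤ (l / 2 - s / 2) *
      ((f (l / 2) + (l / 2 - s / 2) / (s - l / 2) * (f (l / 2) - f s)) ^ 2
      + (f (l / 2) + (l / 2 - s / 2) / (s - l / 2) * (f (l / 2) - f s)) * f (l / 2)
      + f (l / 2) ^ 2) / 3 := by
    rcases eq_or_lt_of_le h2 with h | h
    · rw [h, intervalIntegral.integral_same]; simp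
    · exact upr hf (by linarith) (by linarith) (by linarith) h2
  have el : l / 2 / 2 = l / 4 := by ring
  rw [el] at k6
  rw [hf.one] at k1
  rw [e1] at hB
  rw [e0]
  set H := ∫ t in (0 : ℝ)..(l / 4), f t ^ 2
  set J := ∫ t in (l / 4)..(l / 2), f t ^ 2
  set M := ∫ t in (l / 2)..s, f t ^ 2
  set E := ∫ t in s..l, f t ^ 2
  set I := ∫ t in (s / 2)..(l / 2), f t ^ 2
  set v := f s
  set u := f (l / 2)
  set p := f (l / 4)
  obtain ⟨σ, hσ⟩ : ∃ j, s = l * j := ⟨s / l, by field_simp⟩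
  obtain ⟨H', hH'⟩ : ∃ j, H = l * j := ⟨H / l, by field_simp⟩
  obtain ⟨J', hJ'⟩ : ∃ j, J = l * j := ⟨J / l, by field_simp⟩
  obtain ⟨M', hM'⟩ : ∃ j, M = l * j := ⟨M / l, by field_simp⟩
  obtain ⟨E', hE'⟩ : ∃ j, E = l * j := ⟨E / l, by field_simp⟩
  obtain ⟨I', hI'⟩ : ∃ j, I = l * j := ⟨I / l, by field_simp⟩
  have c1 : 18 / 25 ≤ σ := le_of_mul_le_mul_left (show l * (18 / 25) ≤ l * σ by linarith) hl
  have c2 : σ ≤ 1 := le_of_mul_le_mul_left (show l * σ ≤ l * 1 by linarith) hl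
  have hp : (1 + u) / 2 ≤ p := by linarith
  have hu0 : 0 ≤ u := k5.trans k8
  have hp2 : (1 + u) ^ 2 / 4 ≤ p ^ 2 := by nlinarith
  have hpu : (1 + u) / 2 * u ≤ p * u := mul_le_mul_of_nonneg_right hp hu0
  have hD : 0 < 2 * σ - 1 := by linarith
  have hr : (l / 2 - s / 2) / (s - l / 2) = (1 - σ) / (2 * σ - 1) := by
    rw [hσ, div_eq_div_iff (by
      have : l * σ - l / 2 = l * (2 * σ - 1) / 2 := by ring
      rw [this]; positivity) hD.ne']
    ring
  rw [hr] at k10
  set r := (1 - σ) / (2 * σ - 1) with hrdef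
  have hr0 : 0 ≤ r := div_nonneg (by linarith) hD.le
  have hr1 : r ≤ 7 / 11 := by
    rw [hrdef, div_le_iff₀ hD]; linarith
  obtain ⟨ul, u1, v1, hc⟩ := corner c1 c2
  have d1 : (7 + 4 * u + u ^ 2) / 48 ≤ H' := by
    have : l * ((7 + 4 * u + u ^ 2) / 48) ≤ l * H' := by
      rw [← hH']
      calc l * ((7 + 4 * u + u ^ 2) / 48) ≤ (l / 4 - 0) * (1 ^ 2 + 1 * p + p ^ 2) / 3 := by
            nlinarith
        _ ≤ H := k1
    exact le_of_mul_le_mul_left this hl
  have d2 : (1 + 4 * u + 7 * u ^ 2) / 48 ≤ J' := by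
    have : l * ((1 + 4 * u + 7 * u ^ 2) / 48) ≤ l * J' := by
      rw [← hJ']
      calc l * ((1 + 4 * u + 7 * u ^ 2) / 48) ≤ (l / 2 - l / 4) * (p ^ 2 + p * u + u ^ 2) / 3 := by
            nlinarith
        _ ≤ J := k2
    exact le_of_mul_le_mul_left this hl
  have d3 : 3 / 2 * σ ≤ u ^ 2 + 4 * J' := by
    have : l * (3 / 2 * σ) ≤ l * (u ^ 2 + 4 * J') := by
      have a1 : l * (3 / 2 * σ) = 3 / 2 * s := by rw [hσ]; ring
      have a2 : l * (u ^ 2 + 4 * J') = l * u ^ 2 + 4 * J := by rw [hJ']; ring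
      rw [a1, a2]; exact hA
    exact le_of_mul_le_mul_left this hl
  have d4 : (σ - 1 / 2) * (u ^ 2 + u * v + v ^ 2) / 3 ≤ M' := by
    have : l * ((σ - 1 / 2) * (u ^ 2 + u * v + v ^ 2) / 3) ≤ l * M' := by
      rw [← hM']
      calc l * ((σ - 1 / 2) * (u ^ 2 + u * v + v ^ 2) / 3)
          = (s - l / 2) * (u ^ 2 + u * v + v ^ 2) / 3 := by rw [hσ]; ring
        _ ≤ M := k3
    exact le_of_mul_le_mul_left this hl
  have d5 : (1 - σ) * v ^ 2 / 3 ≤ E' := by
    have : l * ((1 - σ) * v ^ 2 / 3) ≤ l * E' := by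
      rw [← hE']
      calc l * ((1 - σ) * v ^ 2 / 3) = (l - s) * v ^ 2 / 3 := by rw [hσ]; ring
        _ ≤ E := k4
    exact le_of_mul_le_mul_left this hl
  have d6 : 3 / 2 * σ ≤ 2 * σ * v ^ 2 + 4 * (I' + M') := by
    have : l * (3 / 2 * σ) ≤ l * (2 * σ * v ^ 2 + 4 * (I' + M')) := by
      have a1 : l * (3 / 2 * σ) = 3 / 2 * s := by rw [hσ]; ring
      have a2 : l * (2 * σ * v ^ 2 + 4 * (I' + M')) = 2 * s * v ^ 2 + 4 * (I + M) := by
        rw [hσ, hI', hM']; ring
      rw [a1, a2]; exact hB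
    exact le_of_mul_le_mul_left this hl
  have d7 : I' ≤ (1 - σ) / 6 * (3 * u ^ 2 + 3 * r * u * (u - v) + r ^ 2 * (u - v) ^ 2) := by
    have : l * I' ≤ l * ((1 - σ) / 6 * (3 * u ^ 2 + 3 * r * u * (u - v)
        + r ^ 2 * (u - v) ^ 2)) := by
      rw [← hI']
      refine k10.trans (le_of_eq ?_)
      rw [hσ]; ring
    exact le_of_mul_le_mul_left this hl
  have d8 : v + (2 * σ - 1) ≤ 2 * σ * u := by
    have : l * (v + (2 * σ - 1)) ≤ l * (2 * σ * u) := by
      rw [hσ] at k9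
      linarith
    exact le_of_mul_le_mul_left this hl
  have := core hc c1 c2 hr0 hr1 k5 k8 k7 d8 d1 d2 d3 d4 d5 d6 d7
  have h7 := mul_le_mul_of_nonneg_left this hl.le
  rw [hH', hJ', hM', hE']
  calc 0.6557 * s = l * (6557 / 10000 * σ) := by rw [hσ]; ring
    _ ≤ l * (H' + J' + M' + E') := h7
    _ = _ := by ring

/-- **the profile inequality** -/
theorem main (hf : Prof l f) :
    (∃ s : ℝ, l / 2 ≤ s ∧ s ≤ l ∧ 0.437 * (3 / 2) * s < ∫ t in (0 : ℝ)..l, f t ^ 2 ∧
      0.437 * (2 * s * f s ^ 2 + 4 * ∫ t in (s / 2)..s, f t ^ 2) < ∫ t in (0 : ℝ)..l, f t ^ 2) ∨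
    ∃ s : ℝ, l < s ∧ 0.437 * (3 / 2) * s < ∫ t in (0 : ℝ)..l, f t ^ 2 ∧
      0.437 * (4 * ∫ t in (l / 2)..l, f t ^ 2) < ∫ t in (0 : ℝ)..l, f t ^ 2 := by
  have hl := hf.l0
  have hx1 := hf.low (a := 0) (b := l) le_rfl hl le_rfl
  rw [hf.one] at hx1
  have hb0 := hf.nonneg l hl.le le_rfl
  have hsum : (∫ t in (0 : ℝ)..(l / 2), f t ^ 2) + ∫ t in (l / 2)..l, f t ^ 2
      = ∫ t in (0 : ℝ)..l, f t ^ 2 :=
    intervalIntegral.integral_add_adjacent_intervals (hf.int le_rfl (by linarith) (by linarith))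
      (hf.int (by linarith) (by linarith) le_rfl)
  have hhalf := half_le hf
  set X := ∫ t in (0 : ℝ)..l, f t ^ 2 with hX
  have hx3 : l / 3 ≤ X := by
    have h1 : 0 ≤ l * (f l + f l ^ 2) := by positivity
    nlinarith
  have hXpos : 0 < X := by linarith
  obtain ⟨s, hs⟩ : ∃ s, X = 0.6556 * s := ⟨X / 0.6556, by field_simp⟩
  have hs0 : 0 < s := by linarith
  rcases lt_or_ge l s with hls | hls
  · right
    refine ⟨s, hls, by linarith, by linarith⟩
  · left
    by_contra hcon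
    push Not at hcon
    have hs1 : l / 2 ≤ s := by linarith
    have c1 := hcon s hs1 hls (by linarith)
    have c2 := hcon (l / 2) le_rfl (by linarith) (by linarith)
    have el : l / 2 / 2 = l / 4 := by ring
    rw [el] at c2
    have hB : 3 / 2 * s ≤ 2 * s * f s ^ 2 + 4 * ∫ t in (s / 2)..s, f t ^ 2 := by linarith
    have hA : 3 / 2 * s ≤ l * f (l / 2) ^ 2 + 4 * ∫ t in (l / 4)..(l / 2), f t ^ 2 := by
      linarith
    rcases le_total s (18 / 25 * l) with h | h
    · have := caseShort hf hs1 h hB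
      linarith
    · have := caseLong hf h hls hA hB
      linarith

end Pool.Agent.Q265.DL
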