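import Pool.Agent.TH219.DL.Bridge
import Pool.Agent.Q265.DL.Prf

/-!
# Every convex body has a double-lattice packing of density at least `0.437`
-/

namespace Pool.Agent.Q265.DL

open MeasureTheory Filter Topology Pool.Agent.TH219.DL
open Pool.Agent.H349R2.Tet (lat dt Ov tr)
open scoped Pointwise

/-- construction of the packing from the averaging inequality -/
theorem build {K : Set (Fin 3 → ℝ)} (hK : IsCompact K) (hc : Convex ℝ K)
    (hne : (interior K).Nonempty) {c l s : ℝ} (hc0 : 0 < c) (hs0 : 0 < s)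
    (hl : 0 < l) (hp : Prof l (pf K)) (hls : l ≤ 2 * s)
    (hmax : ∀ (x : Fin 2 → ℝ) (c : ℝ), 0 ≤ c → x ∈ G K c → c ≤ l)
    (ha0 : 0 < ar K 0) (hXpos : 0 < ∫ t in (0 : ℝ)..l, pf K t ^ 2)
    (h3 : c * (3 / 2) * s ≤ ∫ t in (0 : ℝ)..l, pf K t ^ 2)
    (hlt : ∫⁻ x, Ph K s x < ENNReal.ofReal (ar K 0 * (∫ t in (0 : ℝ)..l, pf K t ^ 2) /
      (c * s) / 4)) :
    ∃ (v : Fin 3 → ℝ) (b : Fin 3 → (Fin 3 → ℝ)), 0 < dt b ∧
      (∀ s ∈ lat b, s ≠ 0 → ¬ Ov K s) ∧
      (∀ s ∈ lat b, Disjoint (interior K) (interior (tr (rfl' K v) s))) ∧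
      ENNReal.ofReal c * ENNReal.ofReal (dt b) ≤ 2 * volume K := by
  have hPc := shadow_compact hK
  have hPi := shadow_interior hne
  set X := ∫ t in (0 : ℝ)..l, pf K t ^ 2 with hX
  set a0 := ar K 0 with ha0def
  set D := a0 * X / (c * s) with hD
  have hDpos : 0 < D := by positivity
  obtain ⟨u, w, hD0, hD0le, hadm⟩ := fary (shadow_convex hc) hPc hPi
  set D0 := u 0 * w 1 - u 1 * w 0 with hD0def
  have hD0le' : D0 ≤ 3 / 2 * a0 := by
    have e : volume (G K 0) = ENNReal.ofReal a0 :=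
      (ENNReal.ofReal_toReal hPc.measure_ne_top).symm
    rw [e, ← ENNReal.ofReal_mul (by norm_num), ENNReal.ofReal_le_ofReal_iff (by positivity)]
      at hD0le
    exact hD0le
  have hDD0 : D0 ≤ D := by
    refine hD0le'.trans ?_
    rw [hD, le_div_iff₀ (by positivity)]
    nlinarith
  set k := Real.sqrt (D / D0) with hk
  have hk1 : 1 ≤ k := by
    rw [hk]
    apply Real.one_le_sqrt.2
    rw [one_le_div hD0]; exact hDD0
  have hk2 : k ^ 2 * D0 = D := by
    rw [hk, Real.sq_sqrt (by positivity), div_mul_cancel₀ _ hD0.ne']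
  have hadm' := adm_scale (hPi.mono interior_subset) hadm hk1
  have hdet : (k • u) 0 * (k • w) 1 - (k • u) 1 * (k • w) 0 = D := by
    rw [← hk2, hD0def]; simp; ring
  obtain ⟨v, b, hb1, hb2, hb3⟩ := double_pack hK hc hs0
    (fun x c hc0 hx => (hmax x c hc0 hx).trans hls) (by rw [hdet]; exact hDpos)
    hadm' (by rw [hdet]; exact hlt)
  rw [hdet] at hb1
  refine ⟨v, b, by rw [hb1]; positivity, hb2, hb3, ?_⟩
  have hvol : ENNReal.ofReal (a0 * X) ≤ volume K := by
    refine le_trans ?_ (vol_ge hK hc)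
    rw [hX, ← lint_pf hK hp ha0 le_rfl hl.le le_rfl]
    exact lintegral_mono_set fun c hcc => le_of_lt hcc.1
  rw [hb1, ← ENNReal.ofReal_mul hc0.le]
  have e3 : c * (2 * s * D) = 2 * (a0 * X) := by
    rw [hD]; field_simp
  rw [e3, ENNReal.ofReal_mul (by norm_num)]
  have e4 : ENNReal.ofReal 2 = 2 := by simp
  rw [e4]
  gcongr

/-- the double-lattice packing of density at least `0.437` -/
theorem double_low {K : Set (Fin 3 → ℝ)} (hK : IsCompact K) (hc : Convex ℝ K)
    (hne : (interior K).Nonempty) :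
    ∃ (v : Fin 3 → ℝ) (b : Fin 3 → (Fin 3 → ℝ)), 0 < dt b ∧
      (∀ s ∈ lat b, s ≠ 0 → ¬ Ov K s) ∧
      (∀ s ∈ lat b, Disjoint (interior K) (interior (tr (rfl' K v) s))) ∧
      ENNReal.ofReal 0.437 * ENNReal.ofReal (dt b) ≤ 2 * volume K := by
  obtain ⟨l, x0, hl, hx0, hmax⟩ := longest hK hne
  have hPc := shadow_compact hK
  have hPi := shadow_interior hne
  have hPpos : 0 < volume (G K 0) :=
    lt_of_lt_of_le (isOpen_interior.measure_pos volume hPi) (measure_mono interior_subset)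
  have ha0 : 0 < ar K 0 := ENNReal.toReal_pos hPpos.ne' hPc.measure_ne_top
  have hp := prof hK hc hl hx0 ha0
  have hint : ∀ a b : ℝ, a ≤ b → 0 ≤ ∫ t in a..b, pf K t ^ 2 := fun a b hab =>
    intervalIntegral.integral_nonneg hab fun t _ => sq_nonneg _
  rcases main hp with ⟨s, hs1, hs2, hs3, hs4⟩ | ⟨s, hs1, hs3, hs4⟩
  · have hs0 : 0 < s := by linarith
    have hXpos : 0 < ∫ t in (0 : ℝ)..l, pf K t ^ 2 := by
      have : 0 < 0.437 * (3 / 2) * s := by positivity
      linarith
    refine build hK hc hne (by norm_num) hs0 hl hp (by linarith) hmax ha0 hXpos hs3.le ?_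
    rw [lint_Ph hK hs0]
    have e1 : ∫⁻ τ in Set.Ioo (s / 2) s, volume (G K τ)
        = ENNReal.ofReal (ar K 0 * ∫ t in (s / 2)..s, pf K t ^ 2) := by
      rw [← lint_pf hK hp ha0 (by linarith) (by linarith) hs2]
      exact setLIntegral_congr Ioo_ae_eq_Ioc
    have h0 := hint (s / 2) s (by linarith)
    rw [e1, vol_pf hK ha0 hs0.le, ← ENNReal.ofReal_mul (by norm_num),
      ← ENNReal.ofReal_mul (by positivity), ← ENNReal.ofReal_add (by positivity) (by positivity),
      ENNReal.ofReal_lt_ofReal_iff (by positivity)]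
    have e2 : 1 / 2 * (ar K 0 * pf K s ^ 2) + 1 / s * (ar K 0 * ∫ t in (s / 2)..s, pf K t ^ 2)
        = ar K 0 * (0.437 * (2 * s * pf K s ^ 2 + 4 * ∫ t in (s / 2)..s, pf K t ^ 2))
          / (0.437 * s) / 4 := by
      field_simp
      ring
    rw [e2]
    apply div_lt_div_of_pos_right _ (by norm_num)
    apply div_lt_div_of_pos_right _ (by positivity)
    exact mul_lt_mul_of_pos_left hs4 ha0
  · have hs0 : 0 < s := by linarith
    have hXpos : 0 < ∫ t in (0 : ℝ)..l, pf K t ^ 2 := by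
      have : 0 < 0.437 * (3 / 2) * s := by positivity
      linarith
    have hemp : ∀ c, l < c → G K c = ∅ := by
      intro c hlc
      rw [Set.eq_empty_iff_forall_notMem]
      intro x hx
      have := hmax x c (by linarith) hx
      linarith
    refine build hK hc hne (by norm_num) hs0 hl hp (by linarith) hmax ha0 hXpos hs3.le ?_
    rw [lint_Ph hK hs0, hemp s hs1, measure_empty, mul_zero, zero_add]
    have e1 : ∫⁻ τ in Set.Ioo (s / 2) s, volume (G K τ)
        ≤ ENNReal.ofReal (ar K 0 * ∫ t in (l / 2)..l, pf K t ^ 2) := by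
      rw [← lint_pf hK hp ha0 (by linarith) (by linarith) le_rfl]
      rw [← lintegral_indicator measurableSet_Ioo, ← lintegral_indicator measurableSet_Ioc]
      apply lintegral_mono
      intro τ
      by_cases h : τ ∈ Set.Ioc (l / 2) l
      · rw [Set.indicator_of_mem h]
        exact Set.indicator_le_self _ _ _
      · rw [Set.indicator_of_notMem h]
        by_cases h2 : τ ∈ Set.Ioo (s / 2) s
        · rw [Set.indicator_of_mem h2, hemp τ, measure_empty]
          by_contra h3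
          push Not at h3
          exact h ⟨by linarith [h2.1], h3⟩
        · rw [Set.indicator_of_notMem h2]
    have h0 := hint (l / 2) l (by linarith)
    calc ENNReal.ofReal (1 / s) * ∫⁻ τ in Set.Ioo (s / 2) s, volume (G K τ)
        ≤ ENNReal.ofReal (1 / s) * ENNReal.ofReal (ar K 0 * ∫ t in (l / 2)..l, pf K t ^ 2) := by
          gcongr
      _ < _ := by
        rw [← ENNReal.ofReal_mul (by positivity), ENNReal.ofReal_lt_ofReal_iff (by positivity)]
        have e2 : 1 / s * (ar K 0 * ∫ t in (l / 2)..l, pf K t ^ 2)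
            = ar K 0 * (0.437 * (4 * ∫ t in (l / 2)..l, pf K t ^ 2)) / (0.437 * s) / 4 := by
          field_simp
        rw [e2]
        apply div_lt_div_of_pos_right _ (by norm_num)
        apply div_lt_div_of_pos_right _ (by positivity)
        exact mul_lt_mul_of_pos_left hs4 ha0

/-- from a packing by `K + u`, `v - K + u` to the density -/
theorem dLs_of {K : Set (Fin 3 → ℝ)} (hK : Body K) {c : ℝ} {v : Fin 3 → ℝ}
    {b : Fin 3 → (Fin 3 → ℝ)} (hb0 : 0 < dt b) (h1 : ∀ s ∈ lat b, s ≠ 0 → ¬ Ov K s)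
    (h2 : ∀ s ∈ lat b, Disjoint (interior K) (interior (tr (rfl' K v) s)))
    (h3 : ENNReal.ofReal c * ENNReal.ofReal (dt b) ≤ 2 * volume K) :
    ENNReal.ofReal c ≤ dLs K := by
  obtain ⟨hKc, hc, hne⟩ := hK
  have hli : LinearIndependent ℝ b := (Pool.Agent.H349R2.Tet.dt_ne_zero_iff b).1 hb0.ne'
  have hle : den K (famLs v b) ≤ dLs K := by
    unfold dLs
    exact le_iSup_of_le v (le_iSup₂_of_le b ⟨hli, famLs_pack h1 h2⟩ le_rfl)
  refine le_trans ?_ ((den_famLs K v b).trans hle)
  rw [Pool.Agent.H349R2.Tet.dens_eq b hli _ (hKc.union (rfl_compact hKc v)), abs_of_pos hb0]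
  rw [ENNReal.le_div_iff_mul_le (Or.inl (by
    rw [ne_eq, ENNReal.ofReal_eq_zero, not_le]; exact hb0)) (Or.inl ENNReal.ofReal_ne_top)]
  refine h3.trans ?_
  have hd : Disjoint (interior K) (interior (rfl' K v)) := by
    have := h2 0 (Pool.Agent.H349R2.Tet.pack_zero_mem b)
    have e : tr (rfl' K v) 0 = rfl' K v := by unfold tr; simp
    rwa [e] at this
  have hrc : Convex ℝ (rfl' K v) := by
    rintro _ ⟨x, hx, rfl⟩ _ ⟨y, hy, rfl⟩ α β hα hβ hαβ
    refine ⟨α • x + β • y, hc hx hy hα hβ hαβ, ?_⟩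
    have e : v = α • v + β • v := by rw [← add_smul, hαβ, one_smul]
    simp only [smul_sub]
    nth_rewrite 1 [e]
    abel
  calc 2 * volume K = volume (interior K) + volume (interior (rfl' K v)) := by
        rw [vol_int hc, vol_int hrc, vol_rfl hKc.measurableSet, two_mul]
    _ = volume (interior K ∪ interior (rfl' K v)) :=
        (measure_union hd isOpen_interior.measurableSet).symm
    _ ≤ volume (K ∪ rfl' K v) :=
        measure_mono (Set.union_subset_union interior_subset interior_subset)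

/-- `δ_{L*} ≥ 0.437` -/
theorem dLs_low {K : Set (Fin 3 → ℝ)} (hK : Body K) : ENNReal.ofReal 0.437 ≤ dLs K := by
  obtain ⟨v, b, hb0, h1, h2, h3⟩ := double_low hK.1 hK.2.1 hK.2.2
  exact dLs_of hK hb0 h1 h2 h3

end Pool.Agent.Q265.DL
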